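import Pool.Agent.D0H13.CA.Main

/-!
# Closed affine manifolds whose fundamental group acts on contractible spaces

Chern's conjecture says that closed affine manifolds have Euler characteristic zero. A closed
affine manifold with non-zero Euler characteristic has no finite covering with a vector field
without zeros (Poincare and Hopf). Let `Γ \ X` be a closed affine manifold with the latter
property, and let `K` be a subgroup of finite index of `Γ`.

1. Let `K` act on an arbitrary contractible space `T`, and let `S y`, `y ∈ T`, be vector fields on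
   `X` which depend continuously on `y` and are permuted by `K`: `γ (S y) = S (γ y)`. Then some
   field `S y` has a zero.
2. Let the nonempty sets `Φ y x` of vector fields on `X` depend on `y ∈ T` and `x ∈ X` in a locally
   constant way, and let them be permuted by `K`. Then there are `x` and `y` such that the origin
   is in the convex hull of the values at `x` of the fields from `Φ y x`. If nonempty sets `P y x`
   of points of the affine space depend on `y` and `x` in the same way then, for some `x` and `y`,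
   the point `dev x` is in the convex hull of `P y x`.
3. If `K` acts on a contractible simplicial complex with the vertices `a`, and nonempty sets `Q a`
   of vector fields (`P a` of points of the affine space) are permuted by `K`, then there is a
   simplex such that the fields from the `Q a` for the vertices `a` of this simplex surround the
   origin at some point (the developing image meets the convex hull of the union of the `P a` for
   the vertices `a` of some simplex). If `K` acts on a partially ordered set with contractible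
   order complex and `P` is a monotone equivariant map to the nonempty convex sets, then the
   developing image meets some `P a`.
4. Every contractible subset of the affine space that is invariant under the holonomy of `K`
   meets the developing image. Any two such sets `S₁`, `S₂` meet. More generally, for finitely
   many such sets `S i` and real numbers `c i` there are `y i ∈ S i` such that `∑ c i y i` is in
   the developing image if `∑ c i = 1`, and is zero if `∑ c i = 0`.
5. Every contractible set of vectors which is invariant under the linear holonomy of `K` contains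
   the zero vector.
6. Let `G` be a topological group which acts continuously by affine maps, and let the holonomy of
   `K` be the composition of a homomorphism `K → G` and this action. Let `L` be a subgroup such
   that `G / L` is contractible; for instance a maximal compact subgroup of a Lie group `G` with
   finitely many components. Then the orbit `G p` of every point `p` that is fixed by `L` meets
   the developing image. If linear actions are taken instead, `L` fixes only the vector zero. (So
   `L` fixes at most one point of the affine space.)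

In 1, 2 the space `T` may be replaced by any sequence of nonempty invariant sets each of which can
be contracted to a point inside the next one.

Moreover, after a finite covering there is an invariant affine subspace `H` of positive dimension
which meets the developing image, such that all this holds for the closed affine manifold
`K \ dev⁻¹(H)`, for all subgroups `K` of finite index.
-/

set_option autoImplicit false

open Set Filter Topology

namespace Pool.Agent.Results.MP_1fa9a4_gt.ContractibleSpaces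

/-- A closed affine manifold `Γ \ X` modelled on the vector space `E`: the group `Γ` acts on the
Hausdorff space `X` freely and properly discontinuously and with compact quotient, and the
developing map `dev` is a local homeomorphism to `E` that is equivariant with respect to the
affine holonomy `hol`. -/
structure ClosedAffine (X Γ E : Type) [TopologicalSpace X] [Group Γ] [MulAction Γ X]
    [NormedAddCommGroup E] [NormedSpace ℝ E] (dev : X → E) (hol : Γ →* (E ≃ᵃ[ℝ] E)) : Prop where
  /-- the developing map is a local homeomorphism -/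
  loc : IsLocalHomeomorph dev
  /-- the group acts by homeomorphisms -/
  cont : ∀ γ : Γ, Continuous fun x : X => γ • x
  /-- the developing map is equivariant -/
  equi : ∀ (γ : Γ) (x : X), dev (γ • x) = hol γ (dev x)
  /-- the action is properly discontinuous -/
  pd : ∀ K : Set X, IsCompact K → {γ : Γ | ∃ x ∈ K, γ • x ∈ K}.Finite
  /-- the quotient is compact -/
  cc : ∃ K : Set X, IsCompact K ∧ ∀ x : X, ∃ γ : Γ, ∃ k ∈ K, γ • k = x
  /-- the action is free -/
  free : ∀ (γ : Γ) (x : X), γ • x = x → γ = 1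

variable {X Γ E : Type} [TopologicalSpace X] [Group Γ] [MulAction Γ X] [NormedAddCommGroup E]
  [NormedSpace ℝ E]

/-- The linear holonomy. -/
def lin (hol : Γ →* (E ≃ᵃ[ℝ] E)) (γ : Γ) : E →ₗ[ℝ] E := (hol γ).linear

/-- The set `S` is invariant under `K`. -/
def Invariant (hol : Γ →* (E ≃ᵃ[ℝ] E)) (K : Subgroup Γ) (S : Set E) : Prop :=
  ∀ γ ∈ K, ∀ q ∈ S, hol γ q ∈ S

/-- The part of the cover which is developed into `H`. -/
def Over (dev : X → E) (H : Set E) : Set X := {x | dev x ∈ H}

/-- The affine manifold `K \ dev⁻¹(H)`, where `H` is an affine subspace with the direction `V`,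
has a continuous vector field without zeros. For `H = E` this is a vector field without zeros on
the covering `K \ X` of `Γ \ X`. -/
def HasField (dev : X → E) (hol : Γ →* (E ≃ᵃ[ℝ] E)) (K : Subgroup Γ) (H : Set E)
    (V : Submodule ℝ E) : Prop :=
  ∃ Z : X → E, ContinuousOn Z (Over dev H) ∧ (∀ x ∈ Over dev H, Z x ∈ V ∧ Z x ≠ 0) ∧
    ∀ γ ∈ K, ∀ x ∈ Over dev H, Z (γ • x) = lin hol γ (Z x)

/-- A sequence of nonempty invariant subsets `Y n` of a space `T` with an action of `G`, each of
which can be contracted to a point inside the next one (then `Y n ⊆ Y (n + 1)`). For a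
contractible space `T`, take `Y n = T` for all `n`. -/
structure Tower (G : Type) [Group G] {T : Type} [TopologicalSpace T] [MulAction G T]
    (Y : ℕ → Set T) : Prop where
  ne : (Y 0).Nonempty
  inv : ∀ n (γ : G), ∀ y ∈ Y n, γ • y ∈ Y n
  cont : ∀ n (γ : G), ContinuousOn (fun y : T => γ • y) (Y n)
  contr : ∀ n, ∃ (h : T × ℝ → T) (z : T), ContinuousOn h (Y n ×ˢ Icc 0 1) ∧ z ∈ Y (n + 1) ∧
    (∀ y ∈ Y n, h (y, 0) = y ∧ h (y, 1) = z) ∧ ∀ y ∈ Y n, ∀ t ∈ Icc (0 : ℝ) 1, h (y, t) ∈ Y (n + 1)

/-- The realization of the simplicial complex with the simplices `s ∈ 𝒦`, by barycentric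
coordinates (with the topology of the coordinates, which is that of the metric
`∑ |w a - w' a|`). -/
def Realization {A : Type} (𝒦 : Set (Finset A)) : Set (A → ℝ) :=
  {w | (∀ a, 0 ≤ w a) ∧ ∃ s ∈ 𝒦, (∀ a, a ∉ s → w a = 0) ∧ ∑ a ∈ s, w a = 1}

/-- Vector fields `S y` which depend continuously on the point `y` of a contractible space `T`
and are permuted by `K`: one of them has a zero. -/
def Family (dev : X → E) (hol : Γ →* (E ≃ᵃ[ℝ] E)) (K : Subgroup Γ) (H : Set E)
    (V : Submodule ℝ E) : Prop :=
  ∀ (T : Type) [TopologicalSpace T] [ContractibleSpace T] [MulAction K T],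
    (∀ γ : K, Continuous fun y : T => γ • y) → ∀ S : T → X → E,
    ContinuousOn (fun p : T × X => S p.1 p.2) (univ ×ˢ Over dev H) →
    (∀ y, ∀ x ∈ Over dev H, S y x ∈ V) →
    (∀ (γ : K) (y : T), ∀ x ∈ Over dev H, lin hol γ.1 (S y x) = S (γ • y) (γ.1 • x)) →
    ∃ y, ∃ x ∈ Over dev H, S y x = 0

/-- The same for towers. -/
def TowerFamily (dev : X → E) (hol : Γ →* (E ≃ᵃ[ℝ] E)) (K : Subgroup Γ) (H : Set E)
    (V : Submodule ℝ E) : Prop :=
  ∀ (T : Type) [TopologicalSpace T] [MulAction K T] (Y : ℕ → Set T), Tower K Y →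
    ∀ S : T → X → E, (∀ n, ContinuousOn (fun p : T × X => S p.1 p.2) (Y n ×ˢ Over dev H)) →
    (∀ n, ∀ y ∈ Y n, ∀ x ∈ Over dev H, S y x ∈ V) →
    (∀ (γ : K) n, ∀ y ∈ Y n, ∀ x ∈ Over dev H, lin hol γ.1 (S y x) = S (γ • y) (γ.1 • x)) →
    ∃ n, ∃ y ∈ Y n, ∃ x ∈ Over dev H, S y x = 0

/-- Sets `Φ y x` of vector fields which are locally constant in `(y, x)` and permuted by `K`: the
origin is in the convex hull of the values at `x` of the fields from some `Φ y x`. -/
def Fields (dev : X → E) (hol : Γ →* (E ≃ᵃ[ℝ] E)) (K : Subgroup Γ) (H : Set E)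
    (V : Submodule ℝ E) : Prop :=
  ∀ (T : Type) [TopologicalSpace T] [MulAction K T] (Y : ℕ → Set T), Tower K Y →
    ∀ Φ : T → X → Set (X → E), (∀ n, ∀ y ∈ Y n, ∀ x ∈ Over dev H, (Φ y x).Nonempty ∧
      ∀ Z ∈ Φ y x, ContinuousOn Z (Over dev H) ∧ (∀ x' ∈ Over dev H, Z x' ∈ V) ∧
        (∀ᶠ p in 𝓝[Y n ×ˢ Over dev H] (y, x), Z ∈ Φ p.1 p.2) ∧
        ∀ γ : K, ∃ Z' ∈ Φ (γ • y) (γ.1 • x), ∀ x' ∈ Over dev H,
          lin hol γ.1 (Z x') = Z' (γ.1 • x')) →
    ∃ x ∈ Over dev H, ∃ n, ∃ y ∈ Y n, (0 : E) ∈ convexHull ℝ {u | ∃ Z ∈ Φ y x, u = Z x}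

/-- The same for sets `P y x` of points of `H`: the point `dev x` is in the convex hull of some
`P y x`. -/
def Points (dev : X → E) (hol : Γ →* (E ≃ᵃ[ℝ] E)) (K : Subgroup Γ) (H : Set E) : Prop :=
  ∀ (T : Type) [TopologicalSpace T] [MulAction K T] (Y : ℕ → Set T), Tower K Y →
    ∀ P : T → X → Set E, (∀ n, ∀ y ∈ Y n, ∀ x ∈ Over dev H, (P y x).Nonempty ∧
      ∀ q ∈ P y x, q ∈ H ∧ (∀ᶠ p in 𝓝[Y n ×ˢ Over dev H] (y, x), q ∈ P p.1 p.2) ∧
        ∀ γ : K, hol γ.1 q ∈ P (γ • y) (γ.1 • x)) →
    ∃ x ∈ Over dev H, ∃ n, ∃ y ∈ Y n, dev x ∈ convexHull ℝ (P y x)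

/-- Sets `Q a` of vector fields for the vertices `a` of a contractible simplicial complex. -/
def Complexes (dev : X → E) (hol : Γ →* (E ≃ᵃ[ℝ] E)) (K : Subgroup Γ) (H : Set E)
    (V : Submodule ℝ E) : Prop :=
  ∀ (A : Type) [MulAction K A] (𝒦 : Set (Finset A)),
    (∀ (γ : K), ∀ s ∈ 𝒦, s.map (MulAction.toPerm γ).toEmbedding ∈ 𝒦) →
    ContractibleSpace (Realization 𝒦) →
    ∀ Q : A → Set (X → E), (∀ a, (Q a).Nonempty) →
    (∀ a, ∀ Z ∈ Q a, ContinuousOn Z (Over dev H) ∧ ∀ x ∈ Over dev H, Z x ∈ V) →
    (∀ (γ : K) a, ∀ Z ∈ Q a, ∃ Z' ∈ Q (γ • a),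
      ∀ x ∈ Over dev H, lin hol γ.1 (Z x) = Z' (γ.1 • x)) →
    ∃ x ∈ Over dev H, ∃ s ∈ 𝒦, (0 : E) ∈ convexHull ℝ {u | ∃ a ∈ s, ∃ Z ∈ Q a, u = Z x}

/-- Sets `P a` of points for the vertices `a` of a contractible simplicial complex. -/
def Vertices (dev : X → E) (hol : Γ →* (E ≃ᵃ[ℝ] E)) (K : Subgroup Γ) (H : Set E) : Prop :=
  ∀ (A : Type) [MulAction K A] (𝒦 : Set (Finset A)),
    (∀ (γ : K), ∀ s ∈ 𝒦, s.map (MulAction.toPerm γ).toEmbedding ∈ 𝒦) →
    ContractibleSpace (Realization 𝒦) →
    ∀ P : A → Set E, (∀ a, (P a).Nonempty) → (∀ a, P a ⊆ H) →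
    (∀ (γ : K) a, ∀ q ∈ P a, hol γ.1 q ∈ P (γ • a)) →
    ∃ x ∈ Over dev H, ∃ s ∈ 𝒦, dev x ∈ convexHull ℝ (⋃ a ∈ s, P a)

/-- Monotone families of convex sets, indexed by a partially ordered set with contractible order
complex. -/
def Posets (dev : X → E) (hol : Γ →* (E ≃ᵃ[ℝ] E)) (K : Subgroup Γ) (H : Set E) : Prop :=
  ∀ (A : Type) [PartialOrder A] [MulAction K A],
    (∀ (γ : K) (a b : A), a ≤ b → γ • a ≤ γ • b) →
    ContractibleSpace (Realization {s : Finset A | IsChain (· ≤ ·) (s : Set A)}) →
    ∀ P : A → Set E, (∀ a, (P a).Nonempty ∧ Convex ℝ (P a) ∧ P a ⊆ H) →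
    (∀ a b, a ≤ b → P a ⊆ P b) → (∀ (γ : K) a, ∀ q ∈ P a, hol γ.1 q ∈ P (γ • a)) →
    ∃ x ∈ Over dev H, ∃ a, dev x ∈ P a

/-- Finitely many invariant contractible sets of points. -/
def Sets (dev : X → E) (hol : Γ →* (E ≃ᵃ[ℝ] E)) (K : Subgroup Γ) (H : Set E) : Prop :=
  ∀ (ι : Type) [Fintype ι] (S : ι → Set E),
    (∀ i, ContractibleSpace (S i) ∧ S i ⊆ H ∧ Invariant hol K (S i)) → ∀ c : ι → ℝ,
    (∑ i, c i = 1 → ∃ y : ι → E, (∀ i, y i ∈ S i) ∧ ∃ x ∈ Over dev H, ∑ i, c i • y i = dev x) ∧
    (∑ i, c i = 0 → ∃ y : ι → E, (∀ i, y i ∈ S i) ∧ ∑ i, c i • y i = 0)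

/-- Groups `G` which act continuously by affine maps that preserve `H`, such that the holonomy of
`K` factors through this action. -/
def Orbits (dev : X → E) (hol : Γ →* (E ≃ᵃ[ℝ] E)) (K : Subgroup Γ) (H : Set E) : Prop :=
  ∀ (G : Type) [Group G] [TopologicalSpace G] [IsTopologicalGroup G] (L : Subgroup G)
    (φ : K →* G) (α : G →* (E ≃ᵃ[ℝ] E)), ContractibleSpace (G ⧸ L) →
    (Continuous fun p : G × E => α p.1 p.2) → (∀ γ : K, α (φ γ) = hol γ.1) →
    (∀ g, ∀ q ∈ H, α g q ∈ H) → ∀ p ∈ H, (∀ g ∈ L, α g p = p) →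
    ∃ g, ∃ x ∈ Over dev H, α g p = dev x

/-- Groups `G` which act continuously by linear maps that preserve `V`, such that the linear
holonomy of `K` factors through this action. -/
def Fixed (hol : Γ →* (E ≃ᵃ[ℝ] E)) (K : Subgroup Γ) (V : Submodule ℝ E) : Prop :=
  ∀ (G : Type) [Group G] [TopologicalSpace G] [IsTopologicalGroup G] (L : Subgroup G)
    (φ : K →* G) (β : G →* (E ≃ₗ[ℝ] E)), ContractibleSpace (G ⧸ L) →
    (Continuous fun p : G × E => β p.1 p.2) → (∀ (γ : K) (v : E), β (φ γ) v = lin hol γ.1 v) →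
    (∀ g, ∀ v ∈ V, β g v ∈ V) → ∀ v ∈ V, (∀ g ∈ L, β g v = v) → v = 0

/-- The properties of the actions of `K` on contractible spaces, for the closed affine manifold
`K \ dev⁻¹(H)`; `V` is the direction of `H`. -/
structure Principle (dev : X → E) (hol : Γ →* (E ≃ᵃ[ℝ] E)) (K : Subgroup Γ) (H : Set E)
    (V : Submodule ℝ E) : Prop where
  /-- continuous families of fields -/
  family : Family dev hol K H V
  /-- continuous families of fields, for towers -/
  tower : TowerFamily dev hol K H V
  /-- locally constant sets of vector fields -/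
  fields : Fields dev hol K H V
  /-- locally constant sets of points -/
  points : Points dev hol K H
  /-- sets of vector fields for the vertices of a contractible simplicial complex -/
  complexes : Complexes dev hol K H V
  /-- sets of points for the vertices of a contractible simplicial complex -/
  vertices : Vertices dev hol K H
  /-- monotone families of convex sets -/
  posets : Posets dev hol K H
  /-- several invariant contractible sets of points -/
  sets : Sets dev hol K H
  /-- Every invariant contractible set of points meets the developing image. -/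
  meets : ∀ S : Set E, ContractibleSpace S → S ⊆ H → Invariant hol K S →
    ∃ x ∈ Over dev H, dev x ∈ S
  /-- Any two invariant contractible sets of points meet. -/
  meet : ∀ S₁ S₂ : Set E, ContractibleSpace S₁ → ContractibleSpace S₂ → S₁ ⊆ H → S₂ ⊆ H →
    Invariant hol K S₁ → Invariant hol K S₂ → (S₁ ∩ S₂).Nonempty
  /-- Contractible sets of vectors that are invariant under the linear holonomy contain zero. -/
  vectors : ∀ S : Set E, ContractibleSpace S → (∀ v ∈ S, v ∈ V) →
    (∀ γ ∈ K, ∀ v ∈ S, lin hol γ v ∈ S) → (0 : E) ∈ S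
  /-- groups that act by affine maps -/
  orbits : Orbits dev hol K H
  /-- groups that act by linear maps -/
  fixed : Fixed hol K V

/-- **Theorem.** Let `Γ \ X` be a closed affine manifold of positive dimension, with `X`
connected, and let `K` be a subgroup of finite index of `Γ`. If the covering `K \ X` has no vector
field without zeros (this is the case if its Euler characteristic is not zero), then `Principle`
holds for it. If no finite covering has a vector field without zeros, there are moreover a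
subgroup `G` of finite index and a `G`-invariant affine subspace `H` of positive dimension, which
meets the developing image, such that for every subgroup `K` of finite index in `G` the closed
affine manifold `K \ dev⁻¹(H)` has no field without zeros, and `Principle` holds for it. -/
theorem result [T2Space X] [ConnectedSpace X] [FiniteDimensional ℝ E] [Nontrivial E]
    {dev : X → E} {hol : Γ →* (E ≃ᵃ[ℝ] E)} (D : ClosedAffine X Γ E dev hol) :
    (∀ K : Subgroup Γ, K.FiniteIndex → ¬ HasField dev hol K univ ⊤ →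
      Principle dev hol K univ ⊤) ∧
    ((∀ K : Subgroup Γ, K.FiniteIndex → ¬ HasField dev hol K univ ⊤) →
      ∃ (G : Subgroup Γ) (H : AffineSubspace ℝ E), G.FiniteIndex ∧ Invariant hol G H ∧
        H.direction ≠ ⊥ ∧ (∃ x, dev x ∈ H) ∧
        ∀ K ≤ G, K.FiniteIndex → ¬ HasField dev hol K H H.direction ∧
          Principle dev hol K H H.direction) := by
  have D' : Pool.Agent.W689.Ch.AffMfd X Γ E dev hol := ⟨D.loc, D.cont, D.equi, D.pd, D.cc⟩
  have gen : ∀ (H : AffineSubspace ℝ E) (K : Subgroup Γ) (x₀ : X), K.FiniteIndex →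
      dev x₀ ∈ H → (∀ γ ∈ K, ∀ q ∈ H, hol γ q ∈ H) →
      ¬ Pool.Agent.TH845.Mk.Fld dev (hol.comp K.subtype) H →
      Principle dev hol K H H.direction := by
    intro H K x₀ hK hx hG hF
    have hT : ∀ {T : Type} [TopologicalSpace T] [MulAction K T] {Y : ℕ → Set T},
        Tower K Y → Pool.Agent.D0H13.CA.Tower K Y := fun h => ⟨h.ne, h.inv, h.cont, h.contr⟩
    have hsets : ∀ (ι : Type) [Fintype ι] (S : ι → Set E),
        (∀ i, ContractibleSpace (S i) ∧ S i ⊆ H ∧ Invariant hol K (S i)) → ∀ c : ι → ℝ,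
        (∑ i, c i = 1 → ∃ y : ι → E, (∀ i, y i ∈ S i) ∧ ∃ x ∈ Over dev H,
          ∑ i, c i • y i = dev x) ∧
        (∑ i, c i = 0 → ∃ y : ι → E, (∀ i, y i ∈ S i) ∧ ∑ i, c i • y i = 0) := by
      intro ι _ S hS c
      have hC : ∀ i, Pool.Agent.D0H13.CA.Contr (S i) := fun i => by
        have := (hS i).1
        exact Pool.Agent.D0H13.CA.contr_of (S i)
      exact ⟨fun hc => Pool.Agent.D0H13.CA.sets_one D' D.free hK hx hG hF hC
          (fun i => (hS i).2.1) (fun i => (hS i).2.2) hc,
        fun hc => Pool.Agent.D0H13.CA.sets_zero D' D.free hK hx hG hF hC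
          (fun i => (hS i).2.1) (fun i => (hS i).2.2) hc⟩
    refine ⟨?_, ?_, ?_, ?_, ?_, ?_, ?_, hsets, ?_, ?_, ?_, ?_, ?_⟩
    · intro T _ _ _ hcont S h1 h2 h3
      have hTw : Pool.Agent.D0H13.CA.Tower K (fun _ : ℕ => (univ : Set T)) :=
        (Pool.Agent.D0H13.CA.contr_univ T).tower (fun _ _ _ => mem_univ _)
          (fun γ => (hcont γ).continuousOn)
      obtain ⟨n, y, -, x, hxH, h⟩ := Pool.Agent.D0H13.CA.family_gen D' D.free hK hx hG hF hTw
        (S := S) (fun _ => h1) (fun _ y _ x hxH => h2 y x hxH)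
        (fun γ _ y _ x hxH => h3 γ y x hxH)
      exact ⟨y, x, hxH, h⟩
    · intro T _ _ Y hY S h1 h2 h3
      exact Pool.Agent.D0H13.CA.family_gen D' D.free hK hx hG hF (hT hY) h1 h2 h3
    · intro T _ _ Y hY Φ h
      obtain ⟨x, hxH, n, y, hy, h0⟩ := Pool.Agent.D0H13.CA.fields_gen D' D.free hK hx hG hF
        (hT hY) (Φ := Φ) (fun n y hy x hxH => (h n y hy x hxH).1)
        (fun n y hy x hxH Z hZ => ((h n y hy x hxH).2 Z hZ).1)
        (fun n y hy x hxH Z hZ => ((h n y hy x hxH).2 Z hZ).2.1)
        (fun n y hy x hxH Z hZ => ((h n y hy x hxH).2 Z hZ).2.2.1)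
        (fun γ n y hy x hxH Z hZ => ((h n y hy x hxH).2 Z hZ).2.2.2 γ)
      exact ⟨x, hxH, n, y, hy, h0⟩
    · intro T _ _ Y hY P h
      obtain ⟨x, hxH, n, y, hy, h0⟩ := Pool.Agent.D0H13.CA.points_gen D' D.free hK hx hG hF
        (hT hY) (P := P) (fun n y hy x hxH => (h n y hy x hxH).1)
        (fun n y hy x hxH q hq => ((h n y hy x hxH).2 q hq).1)
        (fun n y hy x hxH q hq => ((h n y hy x hxH).2 q hq).2.1)
        (fun γ n y hy x hxH q hq => ((h n y hy x hxH).2 q hq).2.2 γ)
      exact ⟨x, hxH, n, y, hy, h0⟩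
    · intro A _ 𝒦 h1 h2 Q h4 h5 h6
      exact Pool.Agent.D0H13.CA.complex_fields D' D.free hK hx hG hF h1
        (by have := h2; exact Pool.Agent.D0H13.CA.contr_of (Realization 𝒦))
        h4 (fun a Z hZ => (h5 a Z hZ).1) (fun a Z hZ => (h5 a Z hZ).2) h6
    · intro A _ 𝒦 h1 h2 P h4 h5 h6
      exact Pool.Agent.D0H13.CA.complex_points D' D.free hK hx hG hF h1
        (by have := h2; exact Pool.Agent.D0H13.CA.contr_of (Realization 𝒦)) h4 h5 h6
    · intro A _ _ h1 h2 P h4 h5 h6
      exact Pool.Agent.D0H13.CA.poset_points D' D.free hK hx hG hF h1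
        (by
          have := h2
          exact Pool.Agent.D0H13.CA.contr_of
            (Realization {s : Finset A | IsChain (· ≤ ·) (s : Set A)}))
        (fun a => (h4 a).1) (fun a => (h4 a).2.1) h5 (fun a => (h4 a).2.2) h6
    · intro S h1 h2 h3
      obtain ⟨y, hy, x, hxH, h⟩ := (hsets Unit (fun _ => S) (fun _ => ⟨h1, h2, h3⟩)
        (fun _ => 1)).1 (by simp)
      refine ⟨x, hxH, ?_⟩
      rw [← h]
      simpa using hy ()
    · intro S₁ S₂ h1 h2 h3 h4 h5 h6
      obtain ⟨y, hy, h⟩ := (hsets (Fin 2) ![S₁, S₂] (fun i => by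
        fin_cases i
        · exact ⟨h1, h3, h5⟩
        · exact ⟨h2, h4, h6⟩) ![1, -1]).2 (by simp)
      rw [Fin.sum_univ_two] at h
      have e0 : (![1, -1] : Fin 2 → ℝ) 0 = 1 := rfl
      have e1 : (![1, -1] : Fin 2 → ℝ) 1 = -1 := rfl
      rw [e0, e1, one_smul, neg_one_smul, ← sub_eq_add_neg, sub_eq_zero] at h
      have y0 : y 0 ∈ S₁ := hy 0
      have y1 : y 1 ∈ S₂ := hy 1
      exact ⟨y 0, y0, by rw [h]; exact y1⟩
    · intro S h1 h2 h3
      exact Pool.Agent.D0H13.CA.vectors D' D.free hK hx hG hF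
        (by have := h1; exact Pool.Agent.D0H13.CA.contr_of S) h2 h3
    · intro G _ _ _ L φ α h1 h2 h3 h4 p hp hL
      obtain ⟨g, x, hxH, h⟩ := Pool.Agent.D0H13.CA.homog_point D' D.free hK hx hG hF φ α h2 h3 h4
        hp hL
      exact ⟨g, x, hxH, h⟩
    · intro G _ _ _ L φ β h1 h2 h3 h4 v hv hL
      exact Pool.Agent.D0H13.CA.homog_vector D' D.free hK hx hG hF φ β h2 h3 h4 hv hL
  obtain ⟨x₁⟩ := (inferInstance : Nonempty X)
  refine ⟨fun K hK hno => ?_, fun hno => ?_⟩
  · have h := gen ⊤ K x₁ hK (AffineSubspace.mem_top ℝ E _)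
      (fun γ _ q _ => AffineSubspace.mem_top ℝ E _) (fun ⟨Z, h1, h2, h3⟩ =>
        hno ⟨Z, h1, fun x _ => ⟨trivial, (h2 x trivial).2⟩, fun γ hγ x _ => h3 ⟨γ, hγ⟩ x trivial⟩)
    rw [AffineSubspace.direction_top] at h
    exact h
  · obtain ⟨G, H, x₀, m⟩ := Pool.Agent.Y150.Ch.exists_min D' (fun K hK ⟨Z, h1, h2, h3⟩ =>
      hno K hK ⟨Z, h1, fun x _ => ⟨trivial, (h2 x trivial).2⟩, fun γ hγ x _ => h3 ⟨γ, hγ⟩ x trivial⟩)
    refine ⟨G, H, m.fin, m.inv, m.dir, ⟨x₀, m.mem⟩, ?_⟩
    intro K hK hKf
    exact ⟨fun ⟨Z, h1, h2, h3⟩ => m.fld K hK hKf ⟨Z, h1, h2, fun γ x hx => h3 γ.1 γ.2 x hx⟩,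
      gen H K x₀ hKf m.mem (fun γ hγ => m.inv γ (hK hγ)) (m.fld K hK hKf)⟩

end Pool.Agent.Results.MP_1fa9a4_gt.ContractibleSpaces
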