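import Pool.Agent.D0H26.RR.Subq
import Pool.Agent.D0H26.RR.Face

/-!
# Closed affine manifolds, random rays, and the local complexity of covers

Chern's conjecture says that closed affine manifolds have Euler characteristic zero. A closed
affine manifold with non-zero Euler characteristic has no vector field without zeros (Poincare and
Hopf), and the same holds for its finite coverings. We prove that such a manifold has no cover (and
that its fundamental group has no action on a contractible complex) which is locally simple. These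
are inequalities in the manner of Milnor, Sullivan and Smillie, but local, and for simplices of all
dimensions.

Let `Γ \ X` be a closed affine manifold modelled on the vector space `E`, let `K` be a subgroup of
finite index of `Γ`, and let `N₁ ≤ N₂` be subspaces of `E` which are invariant under the linear
holonomy of `K` (for instance `N₁ = 0` and `N₂ = E`). Let `V = N₂ / N₁`, of dimension `m`. Let
`(U a)`, `a ∈ A`, be an open cover of `X` which is permuted by `K`, with nerve `𝒦` (for instance the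
components of the preimages of the sets of an open cover of `K \ X`); or let `𝒦` be a simplicial
complex on which `K` acts, with contractible realization.

Let `p m k` be the probability that `k` random vectors in `ℝ^m` lie in no open half-space
(`0` for `k ≤ m` and `2 ^ (- m)` for `k = m + 1`).

1. Let `K \ X` have no vector field without zeros. Let `ℳ` be a finite family of finite sets of
   vertices such that every simplex of dimension at most `m` is contained in a translate of one of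
   them, and such that elements of `K` which map a vertex of a member of `ℳ` to a vertex of the same
   member act by positive scalars on `V` (for instance, the vertex stabilizers act by positive
   scalars on `V`, and the vertices of every member are in different orbits). Then the sum of the
   `p m |t|`, `t ∈ ℳ`, is at least one. Further, for all weights `w t` in `[0, 1)` there is a `t` in
   `ℳ` such that `p m |t|` is larger than `w t` times the product of the `1 - w t'` over the
   `t' ≠ t` in `ℳ` that meet `t` modulo `K`. (For instance, `ℳ` can consist of the simplices of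
   dimension at most `m`, where the dimension of `𝒦` is arbitrary: there are at least `2 ^ m`
   simplices of dimension `m` modulo `K`, and one of them meets more than `2 ^ m / e - 1` others.)
2. Let `K \ X` have no vector field without zeros. Let `A` consist of finitely many orbits, let every
   vertex be adjacent to at most `D` others (in the case of covers: every `U a` meets at most `D`
   others), and let the elements of `K` which map a vertex of the star of a vertex to a vertex of the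
   same star act by positive scalars on `V`. Then `e (D + 1) ^ 2 p m (D + 1) > 1`, and `D` is at
   least `2 m - 4 (m (1 + 2 log (D + 1))) ^ (1 / 2)`: one of the sets meets about `2 m` others, or
   more. Further, some vertex is in more than `2 ^ m / (e (m + 1))` simplices of dimension `m`.
3. Let `K` be finitely generated, and let no finite covering of `K \ X` have a vector field without
   zeros. Then the inequalities of 2. hold whenever `A` consists of finitely many orbits, every
   vertex is adjacent to at most `D` others, and the stabilizers of the vertices act on `V` through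
   groups which are finite modulo positive scalars. For instance, `K` may act properly and
   cocompactly on a contractible simplicial complex in which every vertex is adjacent to at most `D`
   others; or the `U a` may be the components of the preimages of open sets with finite linear
   holonomy.

The proof chooses a random equivariant family of rays in `V`, one for each vertex; the third part
uses Malcev's theorem.
-/

set_option autoImplicit false

open Set Filter Topology

namespace Pool.Agent.Results.MP_1fa9a4_gt.RandomRays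

/-- A closed affine manifold `Γ \ X` modelled on the vector space `E`: the group `Γ` acts on the
Hausdorff space `X` freely and properly discontinuously and with compact quotient, and the
developing map `dev` is a local homeomorphism to `E` that is equivariant with respect to the
affine holonomy `hol`. -/
structure ClosedAffine (X Γ E : Type) [TopologicalSpace X] [Group Γ] [MulAction Γ X]
    [NormedAddCommGroup E] [NormedSpace ℝ E] (dev : X → E) (hol : Γ →* (E ≃ᵃ[ℝ] E)) : Prop where
  /-- the developing map is a local homeomorphism -/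
  loc : IsLocalHomeomorph dev
  /-- the group acts by homeomorphisms -/
  cont : ∀ γ : Γ, Continuous fun x : X => γ • x
  /-- the developing map is equivariant -/
  equi : ∀ (γ : Γ) (x : X), dev (γ • x) = hol γ (dev x)
  /-- the action is properly discontinuous -/
  pd : ∀ K : Set X, IsCompact K → {γ : Γ | ∃ x ∈ K, γ • x ∈ K}.Finite
  /-- the quotient is compact -/
  cc : ∃ K : Set X, IsCompact K ∧ ∀ x : X, ∃ γ : Γ, ∃ k ∈ K, γ • k = x
  /-- the action is free -/
  free : ∀ (γ : Γ) (x : X), γ • x = x → γ = 1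

variable {X Γ E : Type} [TopologicalSpace X] [Group Γ] [MulAction Γ X] [NormedAddCommGroup E]
  [NormedSpace ℝ E]

/-- The linear holonomy. -/
def lin (hol : Γ →* (E ≃ᵃ[ℝ] E)) (γ : Γ) : E →ₗ[ℝ] E := (hol γ).linear

/-- The covering `K \ X` of `Γ \ X` has a continuous vector field without zeros. -/
def HasField (X : Type) [TopologicalSpace X] [MulAction Γ X] (hol : Γ →* (E ≃ᵃ[ℝ] E))
    (K : Subgroup Γ) : Prop :=
  ∃ Z : X → E, Continuous Z ∧ (∀ x, Z x ≠ 0) ∧ ∀ γ ∈ K, ∀ x, Z (γ • x) = lin hol γ (Z x)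

/-- The linear subspace `N` is invariant under the linear holonomy of `K`. -/
def LinInvariant (hol : Γ →* (E ≃ᵃ[ℝ] E)) (K : Subgroup Γ) (N : Submodule ℝ E) : Prop :=
  ∀ γ ∈ K, ∀ v ∈ N, lin hol γ v ∈ N

section complexes

variable {G A : Type} [Group G] [MulAction G A]

/-- The image of a finite set of vertices. -/
def image (γ : G) (s : Finset A) : Finset A := s.map (MulAction.toPerm γ).toEmbedding

/-- The sets in `𝒦` are the simplices of a simplicial complex on which `G` acts. -/
structure Complex (G : Type) {A : Type} [Group G] [MulAction G A] (𝒦 : Set (Finset A)) :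
    Prop where
  /-- the group permutes the simplices -/
  inv : ∀ (γ : G), ∀ s ∈ 𝒦, image γ s ∈ 𝒦
  /-- the nonempty faces of a simplex are simplices -/
  faces : ∀ s ∈ 𝒦, ∀ t ⊆ s, t.Nonempty → t ∈ 𝒦

/-- The realization of the simplicial complex with the simplices `s ∈ 𝒦`, by barycentric
coordinates. -/
def Realization (𝒦 : Set (Finset A)) : Set (A → ℝ) :=
  {w | (∀ a, 0 ≤ w a) ∧ ∃ s ∈ 𝒦, (∀ a, a ∉ s → w a = 0) ∧ ∑ a ∈ s, w a = 1}

/-- There is an open cover of `X` by sets `U a`, `a ∈ A`, permuted by `G`, such that the set of the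
indices `a` with `x ∈ U a` is a simplex for every `x`. -/
def HasCover (X G : Type) {A : Type} [Group G] [MulAction G A] [TopologicalSpace X]
    [MulAction G X] (𝒦 : Set (Finset A)) : Prop :=
  ∃ U : A → Set X, (∀ a, IsOpen (U a)) ∧
    (∀ (γ : G) (a : A) (x : X), x ∈ U a → γ • x ∈ U (γ • a)) ∧
    ∀ x, ∃ s ∈ 𝒦, s.Nonempty ∧ ∀ a, x ∈ U a ↔ a ∈ s

/-- Every simplex of dimension at most `m` is contained in a translate of a member of `ℳ`. -/
def Exhausts (G : Type) {A : Type} [Group G] [MulAction G A] (ℳ : Finset (Finset A))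
    (𝒦 : Set (Finset A)) (m : ℕ) : Prop :=
  ∀ s ∈ 𝒦, s.Nonempty → s.card ≤ m + 1 → ∃ t ∈ ℳ, ∃ γ : G, ∀ a ∈ s, γ • a ∈ t

/-- A translate of `t` meets `t'`. -/
def Meets (G : Type) {A : Type} [Group G] [MulAction G A] (t t' : Finset A) : Prop :=
  ∃ γ : G, ∃ a ∈ t, γ • a ∈ t'

/-- The vertices `a` and `b` are in a common simplex. -/
def Adjacent (𝒦 : Set (Finset A)) (a b : A) : Prop := ∃ s ∈ 𝒦, a ∈ s ∧ b ∈ s

/-- Every vertex is adjacent to at most `D` others. -/
def DegreeAtMost (𝒦 : Set (Finset A)) (D : ℕ) : Prop :=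
  ∀ a, {b | b ≠ a ∧ Adjacent 𝒦 a b}.Finite ∧ {b | b ≠ a ∧ Adjacent 𝒦 a b}.ncard ≤ D

/-- There are finitely many orbits of vertices. -/
def FinitelyManyOrbits (G A : Type) [Group G] [MulAction G A] : Prop :=
  ∃ R : Set A, R.Finite ∧ ∀ a, ∃ γ : G, γ • a ∈ R

/-- The element `γ` maps a vertex of the (closed) star of `a` to a vertex of the star of `a`. -/
def StaysInStar {G : Type} {A : Type} [Group G] [MulAction G A] (𝒦 : Set (Finset A)) (a : A)
    (γ : G) : Prop :=
  ∃ b, (b = a ∨ Adjacent 𝒦 a b) ∧ (γ • b = a ∨ Adjacent 𝒦 a (γ • b))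

end complexes

/-- `γ` acts by a positive scalar on `N₂ / N₁`. -/
def ActsByScalar (hol : Γ →* (E ≃ᵃ[ℝ] E)) (N₁ N₂ : Submodule ℝ E) (γ : Γ) : Prop :=
  ∃ c : ℝ, 0 < c ∧ ∀ v ∈ N₂, lin hol γ v - c • v ∈ N₁

/-- The number `2 ^ (1 - k) * ∑ (k - 1 choose j)`, the sum over `m ≤ j < k`. By a theorem of Wendel
this is the probability that `k` independent symmetric random vectors in `ℝ^m`, in general position
almost surely, lie in no open half-space; it is `0` for `k ≤ m`, and `2 ^ (-m)` for `k = m + 1`. -/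
noncomputable def p (m k : ℕ) : ℝ :=
  (∑ j ∈ Finset.Ico m k, ((k - 1).choose j : ℝ)) / 2 ^ (k - 1)

/-- The inequalities for a complex in which every vertex is adjacent to at most `d` others. In the
third one, `q` is a bound for the numbers of the simplices of dimension `m` at the vertices. -/
def LocalBounds {A : Type} (𝒦 : Set (Finset A)) (m d : ℕ) : Prop :=
  1 < Real.exp 1 * ((d : ℝ) + 1) ^ 2 * p m (d + 1) ∧
    2 * (m : ℝ) - d ≤ 4 * √(m * (1 + 2 * Real.log ((d : ℝ) + 1))) ∧
    ∀ q : ℕ, (∀ a, {s | s ∈ 𝒦 ∧ a ∈ s ∧ s.card = m + 1}.ncard ≤ q) →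
      (2 : ℝ) ^ m < Real.exp 1 * (m + 1) * q

theorem cover_of [T2Space X] [FiniteDimensional ℝ E] {dev : X → E} {hol : Γ →* (E ≃ᵃ[ℝ] E)}
    (D : ClosedAffine X Γ E dev hol) (K : Subgroup Γ) (hK : K.FiniteIndex)
    (A : Type) [MulAction K A] (𝒦 : Set (Finset A))
    (h𝒦 : Complex K 𝒦) (hmap : ContractibleSpace (Realization 𝒦)) : HasCover X K 𝒦 := by
  classical
  have D₀ : Pool.Agent.W689.Ch.AffMfd X Γ E dev hol := ⟨D.loc, D.cont, D.equi, D.pd, D.cc⟩
  have D' := Pool.Agent.Y150.Ch.restr D₀ K hK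
  have hfree : ∀ (γ : K) (x : X), γ • x = x → γ = 1 := fun γ x h => Subtype.ext (D.free γ.1 x h)
  have hi : ∀ (γ : K), ∀ s ∈ 𝒦, s.map (MulAction.toPerm γ).toEmbedding ∈ 𝒦 := h𝒦.inv
  obtain ⟨f, hf1, hf2, hf3⟩ := Pool.Agent.D0H26.SS.exists_map_rl D' hfree hi
    (by have := hmap; exact Pool.Agent.D0H13.CA.contr_of (Realization 𝒦))
  refine ⟨fun a => {x | 0 < f x a}, fun a => ?_, ?_, ?_⟩
  · exact isOpen_lt continuous_const ((continuous_apply a).comp hf1)
  · intro γ a x hx
    show 0 < f (γ • x) (γ • a)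
    rw [hf3]
    show 0 < f x (γ⁻¹ • γ • a)
    rw [inv_smul_smul]
    exact hx
  · intro x
    obtain ⟨h0, s, hs, h1, h2⟩ := hf2 x
    have hne : (s.filter (fun a => 0 < f x a)).Nonempty := by
      by_contra h
      rw [Finset.not_nonempty_iff_eq_empty, Finset.filter_eq_empty_iff] at h
      have h3 : ∑ a ∈ s, f x a = 0 := Finset.sum_eq_zero fun a ha =>
        le_antisymm (not_lt.1 (h ha)) (h0 a)
      rw [h2] at h3
      exact one_ne_zero h3
    refine ⟨s.filter (fun a => 0 < f x a), h𝒦.faces s hs _ (Finset.filter_subset _ _) hne,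
      hne, fun a => ?_⟩
    rw [Finset.mem_filter]
    constructor
    · intro ha
      refine ⟨?_, ha⟩
      by_contra has
      have ha' : 0 < f x a := ha
      rw [h1 a has] at ha'
      exact lt_irrefl _ ha'
    · exact fun ha => ha.2

open Classical in
theorem bounds [T2Space X] [FiniteDimensional ℝ E] {dev : X → E} {hol : Γ →* (E ≃ᵃ[ℝ] E)}
    (D : ClosedAffine X Γ E dev hol) (K : Subgroup Γ) (hK : K.FiniteIndex)
    (hno : ¬ HasField X hol K) (A : Type) [MulAction K A] (𝒦 : Set (Finset A))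
    (h𝒦 : Complex K 𝒦) (hcov : HasCover X K 𝒦)
    (N₁ N₂ : Submodule ℝ E) (hle : N₁ ≤ N₂) (hN₁ : LinInvariant hol K N₁)
    (hN₂ : LinInvariant hol K N₂) (m : ℕ)
    (hm : m + Module.finrank ℝ N₁ = Module.finrank ℝ N₂) :
    (∀ ℳ : Finset (Finset A), (∀ t ∈ ℳ, t.Nonempty) →
      (∀ t ∈ ℳ, ∀ a ∈ t, ∀ b ∈ t, ∀ γ : K, γ • a = b → ActsByScalar hol N₁ N₂ γ) → Exhausts K ℳ 𝒦 m →
      1 ≤ ∑ t ∈ ℳ, p m t.card ∧
      ∀ w : Finset A → ℝ, (∀ t ∈ ℳ, 0 ≤ w t ∧ w t < 1) →
        ∃ t ∈ ℳ, w t * ∏ t' ∈ ℳ.filter (fun t' => t' ≠ t ∧ Meets K t t'), (1 - w t') <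
          p m t.card) ∧
    (∀ d : ℕ, FinitelyManyOrbits K A → DegreeAtMost 𝒦 d →
      (∀ (a : A) (γ : K), StaysInStar 𝒦 a γ → ActsByScalar hol N₁ N₂ γ) → LocalBounds 𝒦 m d) := by
  have D₀ : Pool.Agent.W689.Ch.AffMfd X Γ E dev hol := ⟨D.loc, D.cont, D.equi, D.pd, D.cc⟩
  have D' := Pool.Agent.Y150.Ch.restr D₀ K hK
  have hno' : ¬ ∃ Z : X → E, Continuous Z ∧
      (∀ (γ : K) x, Z (γ • x) = Pool.Agent.W689.Mk.lin (hol.comp K.subtype) γ (Z x)) ∧
      ∀ x, Z x ≠ 0 := by
    rintro ⟨Z, h1, h2, h3⟩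
    exact hno ⟨Z, h1, h3, fun γ hγ x => h2 ⟨γ, hγ⟩ x⟩
  obtain ⟨U, hU1, hU2, hU3⟩ := hcov
  have main : ∀ ℳ : Finset (Finset A), (∀ t ∈ ℳ, t.Nonempty) →
      (∀ t ∈ ℳ, ∀ a ∈ t, ∀ b ∈ t, ∀ γ : K, γ • a = b → ActsByScalar hol N₁ N₂ γ) → Exhausts K ℳ 𝒦 m →
      ¬ Pool.Agent.D0H26.RR.Small K ℳ m := by
    intro ℳ hne hℳ hex hs
    have hC : Pool.Agent.D0H26.RR.Cov3 X K U ℳ m := by
      refine ⟨hU1, hU2, fun x => ?_⟩
      obtain ⟨s, hs, hsne, h1⟩ := hU3 x
      exact ⟨s, hsne, fun a => (h1 a).1, fun a => (h1 a).2, fun t ht htne htc =>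
        hex t (h𝒦.faces s hs t ht htne) htne htc⟩
    have h2 : Module.finrank ℝ (Pool.Agent.D0H26.RR.SQ N₁ N₂) = m := by
      have h1 := Pool.Agent.D0H26.RR.finrank_sq N₁ N₂ hle
      omega
    rw [← h2] at hs hC
    exact Pool.Agent.D0H26.RR.sq_random D' hno' N₁ N₂ hC hne
      (fun γ v hv => hN₁ γ.1 γ.2 v hv) (fun γ v hv => hN₂ γ.1 γ.2 v hv)
      (fun t ht a ha b hb γ hγ => hℳ t ht a ha b hb γ hγ) hs
  have weights : ∀ ℳ : Finset (Finset A), (∀ t ∈ ℳ, t.Nonempty) →
      (∀ t ∈ ℳ, ∀ a ∈ t, ∀ b ∈ t, ∀ γ : K, γ • a = b → ActsByScalar hol N₁ N₂ γ) → Exhausts K ℳ 𝒦 m →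
      ∀ w : Finset A → ℝ, (∀ t ∈ ℳ, 0 ≤ w t ∧ w t < 1) →
        ∃ t ∈ ℳ, w t * ∏ t' ∈ ℳ.filter (fun t' => t' ≠ t ∧ Meets K t t'), (1 - w t') <
          p m t.card := by
    intro ℳ hne hℳ hex w hw
    by_contra hcon
    push Not at hcon
    exact main ℳ hne hℳ hex (Or.inr ⟨w, hw, hcon⟩)
  refine ⟨fun ℳ hne hℳ hex => ⟨?_, weights ℳ hne hℳ hex⟩, ?_⟩
  · by_contra hcon
    exact main ℳ hne hℳ hex (Or.inl (not_le.1 hcon))
  · rintro d ⟨R₀, hR₀, hR₀'⟩ hdeg hstar
    obtain ⟨ℳ, h1, h2, h3, h4, h5⟩ := Pool.Agent.D0H26.RR.degree2 (Γ := K)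
      (fun γ => ActsByScalar hol N₁ N₂ γ)
      (Adjacent 𝒦)
      (fun a b ⟨s, hs, ha, hb⟩ => ⟨s, hs, hb, ha⟩)
      (fun γ a b ⟨s, hs, ha, hb⟩ => ⟨_, h𝒦.inv γ s hs,
        Finset.mem_map.2 ⟨a, ha, rfl⟩, Finset.mem_map.2 ⟨b, hb, rfl⟩⟩) R₀ hR₀ hR₀' d hdeg
      (fun a b c hb hc γ hγ => hstar a γ ⟨b, hb, by rw [hγ]; exact hc⟩)
    have hw := weights ℳ h1 h3 (by
      rintro s hs ⟨a, ha⟩ _
      obtain ⟨t, ht, γ, _, h6⟩ := h4 a
      exact ⟨t, ht, γ, fun b hb => h6 b ⟨s, hs, ha, hb⟩⟩)
    obtain ⟨t, ht, h6⟩ := Pool.Agent.D0H26.RR.e_bound ℳ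
      (fun t => ℳ.filter (fun t' => t' ≠ t ∧ Meets K t t')) (fun t => p m t.card) hw
      ((d + 1) ^ 2 - 1) h5
    have h7 : (((d + 1) ^ 2 - 1 : ℕ) : ℝ) + 1 = ((d : ℝ) + 1) ^ 2 := by
      have h8 : 1 ≤ (d + 1) ^ 2 := Nat.one_le_pow _ _ (Nat.succ_pos d)
      rw [Nat.cast_sub h8]
      push_cast
      ring
    rw [h7] at h6
    have h8 : p m t.card ≤ p m (d + 1) := Pool.Agent.D0H26.RR.pr_mono m (h2 t ht)
    have h9 : 1 < Real.exp 1 * ((d : ℝ) + 1) ^ 2 * p m (d + 1) :=
      lt_of_lt_of_le h6 (mul_le_mul_of_nonneg_left h8 (by positivity))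
    refine ⟨h9, ?_, ?_⟩
    swap
    · intro q hq
      obtain ⟨ℳ, k1, k2, k3, k4, k5⟩ := Pool.Agent.D0H26.RR.faces (Γ := K)
        (fun γ => ActsByScalar hol N₁ N₂ γ) 𝒦 m q
        h𝒦.inv R₀ hR₀ hR₀' (fun a => (hdeg a).1) hq (fun s hs a ha b hb γ hγ =>
          hstar a γ ⟨a, Or.inl rfl, Or.inr ⟨s, hs, ha, by rw [hγ]; exact hb⟩⟩)
      exact Pool.Agent.D0H26.RR.face_bound ℳ (Meets K) m q k2 (weights ℳ k1 k3 k4) k5
    have hlog : 0 ≤ Real.log ((d : ℝ) + 1) := Real.log_nonneg (by
      have : (0 : ℝ) ≤ d := Nat.cast_nonneg d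
      linarith)
    rcases le_or_gt (2 * m) d with hd | hd
    · have h10 : 2 * (m : ℝ) ≤ d := by exact_mod_cast hd
      have h11 : 0 ≤ 4 * √(m * (1 + 2 * Real.log ((d : ℝ) + 1))) := by positivity
      linarith
    · have hm0 : 0 < m := by omega
      have hm0' : (0 : ℝ) < m := by exact_mod_cast hm0
      have h10 : p m (d + 1) ≤ Real.exp (-((2 * m - d : ℝ) ^ 2 / (16 * m))) :=
        Pool.Agent.D0H26.RR.pr_exp m d hm0 hd.le
      have h11 : 1 < Real.exp 1 * ((d : ℝ) + 1) ^ 2 *
          Real.exp (-((2 * m - d : ℝ) ^ 2 / (16 * m))) :=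
        lt_of_lt_of_le h9 (mul_le_mul_of_nonneg_left h10 (by positivity))
      have h12 : ((d : ℝ) + 1) ^ 2 = Real.exp (2 * Real.log ((d : ℝ) + 1)) := by
        rw [two_mul, Real.exp_add, Real.exp_log (by positivity), sq]
      rw [h12, ← Real.exp_add, ← Real.exp_add, Real.one_lt_exp_iff] at h11
      have h13 : (2 * m - d : ℝ) ^ 2 / (16 * m) ≤ 1 + 2 * Real.log ((d : ℝ) + 1) := by linarith
      rw [div_le_iff₀ (by positivity)] at h13
      have h14 : (2 * m - d : ℝ) ≤ √(16 * (m * (1 + 2 * Real.log ((d : ℝ) + 1)))) := by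
        refine Real.le_sqrt_of_sq_le ?_
        linarith
      have h15 : √(16 * (m * (1 + 2 * Real.log ((d : ℝ) + 1)))) =
          4 * √(m * (1 + 2 * Real.log ((d : ℝ) + 1))) := by
        rw [Real.sqrt_mul (by norm_num)]
        congr 1
        rw [show (16 : ℝ) = 4 ^ 2 by norm_num]
        exact Real.sqrt_sq (by norm_num)
      rwa [h15] at h14

open Classical in
/-- **Theorem.** Let `Γ \ X` be a closed affine manifold and `K` a subgroup of finite index. Let
`𝒦` be a simplicial complex with vertices in `A` on which `K` acts, such that its realization is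
contractible, or such that there is an invariant open cover of `X` indexed by `A` with nerve in
`𝒦`. Let `N₁ ≤ N₂` be invariant under the linear holonomy of `K`, let `V = N₂ / N₁`, and let `m` be
the dimension of `V`.
(1) If `K \ X` has no continuous vector field without zeros: for all finite families `ℳ` of
nonempty sets such that elements of `K` which map a vertex of a member to a vertex of the same
member act by positive scalars on `V`, and such that every simplex of dimension at most `m` is contained in a translate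
of a member, the sum of the `p m |t|` over `t ∈ ℳ` is at least one, and for all weights `w t ∈ [0, 1)` there is a member `t`
with `w t * ∏ (1 - w t') < p m |t|`, the product over the members `t' ≠ t` which meet a translate of
`t`.
(2) If `K \ X` has no continuous vector field without zeros, if there are finitely many orbits of
vertices, every vertex is adjacent to at most `d` others, and all elements of `K` which map a vertex
of a star to a vertex of the same star act by positive scalars on `V`, then `1 < e (d + 1) ^ 2 p m (d + 1)` and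
`2 m - d ≤ 4 (m (1 + 2 log (d + 1))) ^ (1 / 2)`, and `2 ^ m < e (m + 1) q` whenever every vertex is
in at most `q` simplices of dimension `m`.
(3) The same inequalities hold if `K` is finitely generated, no finite covering of `K \ X` has a
continuous vector field without zeros, there are finitely many orbits of vertices, every vertex is
adjacent to at most `d` others, and the stabilizer of every vertex is finite modulo the elements
which act by positive scalars on `V`. -/
theorem result [T2Space X] [FiniteDimensional ℝ E] {dev : X → E} {hol : Γ →* (E ≃ᵃ[ℝ] E)}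
    (D : ClosedAffine X Γ E dev hol) (K : Subgroup Γ) (hK : K.FiniteIndex)
    (A : Type) [MulAction K A] (𝒦 : Set (Finset A))
    (h𝒦 : Complex K 𝒦) (hmap : ContractibleSpace (Realization 𝒦) ∨ HasCover X K 𝒦)
    (N₁ N₂ : Submodule ℝ E) (hle : N₁ ≤ N₂) (hN₁ : LinInvariant hol K N₁)
    (hN₂ : LinInvariant hol K N₂) (m : ℕ)
    (hm : m + Module.finrank ℝ N₁ = Module.finrank ℝ N₂) :
    (¬ HasField X hol K → ∀ ℳ : Finset (Finset A), (∀ t ∈ ℳ, t.Nonempty) →
      (∀ t ∈ ℳ, ∀ a ∈ t, ∀ b ∈ t, ∀ γ : K, γ • a = b → ActsByScalar hol N₁ N₂ γ) → Exhausts K ℳ 𝒦 m →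
      1 ≤ ∑ t ∈ ℳ, p m t.card ∧
      ∀ w : Finset A → ℝ, (∀ t ∈ ℳ, 0 ≤ w t ∧ w t < 1) →
        ∃ t ∈ ℳ, w t * ∏ t' ∈ ℳ.filter (fun t' => t' ≠ t ∧ Meets K t t'), (1 - w t') <
          p m t.card) ∧
    (¬ HasField X hol K → ∀ d : ℕ, FinitelyManyOrbits K A → DegreeAtMost 𝒦 d →
      (∀ (a : A) (γ : K), StaysInStar 𝒦 a γ → ActsByScalar hol N₁ N₂ γ) → LocalBounds 𝒦 m d) ∧
    (Group.FG K → (∀ L ≤ K, L.FiniteIndex → ¬ HasField X hol L) →
      ∀ d : ℕ, FinitelyManyOrbits K A → DegreeAtMost 𝒦 d →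
      (∀ a : A, ∃ F : Set K, F.Finite ∧ ∀ γ : K, γ • a = a →
        ∃ δ ∈ F, ActsByScalar hol N₁ N₂ (δ⁻¹ * γ : K)) →
      LocalBounds 𝒦 m d) := by
  have hcov : HasCover X K 𝒦 := hmap.elim (fun h => cover_of D K hK A 𝒦 h𝒦 h) id
  refine ⟨fun hno => (bounds D K hK hno A 𝒦 h𝒦 hcov N₁ N₂ hle hN₁ hN₂ m hm).1,
    fun hno => (bounds D K hK hno A 𝒦 h𝒦 hcov N₁ N₂ hle hN₁ hN₂ m hm).2, ?_⟩
  rintro hfg hall d ⟨R₀, hR₀, hR₀'⟩ hdeg hst
  have hinv : ∀ (γ : K) a b, Adjacent 𝒦 a b → Adjacent 𝒦 (γ • a) (γ • b) :=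
    fun γ a b ⟨s, hs, ha, hb⟩ => ⟨_, h𝒦.inv γ s hs,
      Finset.mem_map.2 ⟨a, ha, rfl⟩, Finset.mem_map.2 ⟨b, hb, rfl⟩⟩
  obtain ⟨ρ, ρ1, ρmul, _, ρS⟩ := Pool.Agent.D0H26.RR.rho_sq (hol.comp K.subtype) N₁ N₂
    (fun γ v hv => hN₁ γ.1 γ.2 v hv) (fun γ v hv => hN₂ γ.1 γ.2 v hv)
  obtain ⟨L, hL1, hL2, R₁, hR₁, hR₁'⟩ := Pool.Agent.D0H26.RR.exists_rigid hfg ρ ρ1 ρmul
    (Adjacent 𝒦) hinv R₀ hR₀ hR₀' (fun a => (hdeg a).1) (fun a => by
      obtain ⟨F, hF1, hF2⟩ := hst a
      refine ⟨F, hF1, fun γ hγ => ?_⟩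
      obtain ⟨δ, hδ, h⟩ := hF2 γ hγ
      exact ⟨δ, hδ, (ρS _).2 h⟩)
  let L' : Subgroup Γ := L.map K.subtype
  have hle' : L' ≤ K := Subgroup.map_subtype_le L
  have hL' : L'.FiniteIndex := ⟨by
    show (L.map K.subtype).index ≠ 0
    rw [Subgroup.index_map_subtype]
    exact mul_ne_zero hL1.index_ne_zero hK.index_ne_zero⟩
  have hmem : ∀ γ : L', Subgroup.inclusion hle' γ ∈ L := by
    rintro ⟨_, k, hk, rfl⟩
    exact hk
  let _ : MulAction L' A := MulAction.compHom A (Subgroup.inclusion hle')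
  obtain ⟨U, hU1, hU2, hU3⟩ := hcov
  refine (bounds D L' hL' (hall L' hle' hL') A 𝒦
    ⟨fun γ s hs => h𝒦.inv (Subgroup.inclusion hle' γ) s hs, h𝒦.faces⟩
    ⟨U, hU1, fun γ a x hx => hU2 (Subgroup.inclusion hle' γ) a x hx, hU3⟩ N₁ N₂ hle
    (fun γ hγ => hN₁ γ (hle' hγ)) (fun γ hγ => hN₂ γ (hle' hγ)) m hm).2 d
    ⟨R₁, hR₁, fun a => ?_⟩ hdeg ?_
  · obtain ⟨γ, hγ, h⟩ := hR₁' a
    exact ⟨⟨γ.1, γ, hγ, rfl⟩, h⟩
  · rintro a γ ⟨b, hb, hc⟩
    exact (ρS _).1 (hL2 a b _ hb hc _ (hmem γ) rfl)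

end Pool.Agent.Results.MP_1fa9a4_gt.RandomRays
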