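import Pool.Agent.D0H26.SS.Main

/-!
# Closed affine manifolds and actions on complexes with small stabilizers

Chern's conjecture says that closed affine manifolds have Euler characteristic zero. A closed
affine manifold with non-zero Euler characteristic has no vector field without zeros (Poincare and
Hopf), and the same holds for its finite coverings. Let `Γ \ X` be a closed affine manifold of
dimension `n`, modelled on the vector space `E`, let `K` be a subgroup of finite index of `Γ` such
that the covering `K \ X` has no vector field without zeros, and let `N` be a subspace of `E` which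
is invariant under the linear holonomy of `K`.

Let `K` act on a simplicial complex `T` which is contractible, or which at least receives a
continuous `K`-equivariant map from `X`. We write `K_s` for the stabilizer of a simplex `s`.

1. Let rays (or zero vectors) `r a` in `E / N`, for the vertices `a` of `T`, be permuted by `K`.
   Then there is a simplex `s` such that the rays `r a`, `a ∈ s`, are in no open half-space, and
   such that `K_s` acts by positive scalars on no subspace of `E / N` of dimension larger than that
   of `s`.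
2. Let half-spaces `l a > 0` (or zero functionals) of `N`, for the vertices `a` of `T`, be permuted
   by `K`. Then there is a simplex `s` such that the half-spaces for the `a ∈ s` have no common
   point, and such that `K_s` acts by positive scalars on no quotient of `N` of dimension larger
   than that of `s`.

For `r = 0` this says: Chern's conjecture holds for `Γ \ X` if the stabilizer of every simplex `s`
of `T` acts by positive scalars on a subspace of `E / N` of dimension larger than `dim s`. For
instance, if the linear holonomy on some quotient or subspace of dimension `m` factors through a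
group which acts freely on a contractible complex of dimension less than `m`; or if there is a
continuous map from the manifold to a complex of dimension less than `m` such that the kernel of the
induced map of the fundamental groups acts by positive scalars on a quotient or subspace of
dimension `m`.
-/

set_option autoImplicit false

open Set Filter Topology

namespace Pool.Agent.Results.MP_1fa9a4_gt.SmallStabilizers

/-- A closed affine manifold `Γ \ X` modelled on the vector space `E`: the group `Γ` acts on the
Hausdorff space `X` freely and properly discontinuously and with compact quotient, and the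
developing map `dev` is a local homeomorphism to `E` that is equivariant with respect to the
affine holonomy `hol`. -/
structure ClosedAffine (X Γ E : Type) [TopologicalSpace X] [Group Γ] [MulAction Γ X]
    [NormedAddCommGroup E] [NormedSpace ℝ E] (dev : X → E) (hol : Γ →* (E ≃ᵃ[ℝ] E)) : Prop where
  /-- the developing map is a local homeomorphism -/
  loc : IsLocalHomeomorph dev
  /-- the group acts by homeomorphisms -/
  cont : ∀ γ : Γ, Continuous fun x : X => γ • x
  /-- the developing map is equivariant -/
  equi : ∀ (γ : Γ) (x : X), dev (γ • x) = hol γ (dev x)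
  /-- the action is properly discontinuous -/
  pd : ∀ K : Set X, IsCompact K → {γ : Γ | ∃ x ∈ K, γ • x ∈ K}.Finite
  /-- the quotient is compact -/
  cc : ∃ K : Set X, IsCompact K ∧ ∀ x : X, ∃ γ : Γ, ∃ k ∈ K, γ • k = x
  /-- the action is free -/
  free : ∀ (γ : Γ) (x : X), γ • x = x → γ = 1

variable {X Γ E : Type} [TopologicalSpace X] [Group Γ] [MulAction Γ X] [NormedAddCommGroup E]
  [NormedSpace ℝ E]

/-- The linear holonomy. -/
def lin (hol : Γ →* (E ≃ᵃ[ℝ] E)) (γ : Γ) : E →ₗ[ℝ] E := (hol γ).linear

/-- The covering `K \ X` of `Γ \ X` has a continuous vector field without zeros. -/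
def HasField (X : Type) [TopologicalSpace X] [MulAction Γ X] (hol : Γ →* (E ≃ᵃ[ℝ] E))
    (K : Subgroup Γ) : Prop :=
  ∃ Z : X → E, Continuous Z ∧ (∀ x, Z x ≠ 0) ∧ ∀ γ ∈ K, ∀ x, Z (γ • x) = lin hol γ (Z x)

/-- The linear subspace `N` is invariant under the linear holonomy of `K`. -/
def LinInvariant (hol : Γ →* (E ≃ᵃ[ℝ] E)) (K : Subgroup Γ) (N : Submodule ℝ E) : Prop :=
  ∀ γ ∈ K, ∀ v ∈ N, lin hol γ v ∈ N

section complexes

variable {G A : Type} [Group G] [MulAction G A]

/-- The image of a finite set of vertices. -/
def image (γ : G) (s : Finset A) : Finset A := s.map (MulAction.toPerm γ).toEmbedding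

/-- The sets in `𝒦` are the simplices of a simplicial complex on which `G` acts. -/
structure Complex (G : Type) {A : Type} [Group G] [MulAction G A] (𝒦 : Set (Finset A)) :
    Prop where
  /-- the group permutes the simplices -/
  inv : ∀ (γ : G), ∀ s ∈ 𝒦, image γ s ∈ 𝒦
  /-- the nonempty faces of a simplex are simplices -/
  faces : ∀ s ∈ 𝒦, ∀ t ⊆ s, t.Nonempty → t ∈ 𝒦

/-- The realization of the simplicial complex with the simplices `s ∈ 𝒦`, by barycentric
coordinates (with the topology of the coordinates, which is that of the metric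
`∑ |w a - w' a|`). -/
def Realization (𝒦 : Set (Finset A)) : Set (A → ℝ) :=
  {w | (∀ a, 0 ≤ w a) ∧ ∃ s ∈ 𝒦, (∀ a, a ∉ s → w a = 0) ∧ ∑ a ∈ s, w a = 1}

/-- There is a continuous equivariant map from `X` to the realization. -/
def HasMap (X G : Type) {A : Type} [Group G] [MulAction G A] [TopologicalSpace X] [MulAction G X]
    (𝒦 : Set (Finset A)) : Prop :=
  ∃ f : X → A → ℝ, Continuous f ∧ (∀ x, f x ∈ Realization 𝒦) ∧
    ∀ (γ : G) (x : X) (a : A), f (γ • x) (γ • a) = f x a

end complexes

/-- The vectors `r a` modulo `N`, for the vertices `a`, are permuted by `K` up to positive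
factors. -/
def PermutesRays (hol : Γ →* (E ≃ᵃ[ℝ] E)) (K : Subgroup Γ) {A : Type} [MulAction K A]
    (N : Submodule ℝ E) (r : A → E) : Prop :=
  ∀ (γ : K) (a : A), ∃ c : ℝ, 0 < c ∧ lin hol γ.1 (r a) - c • r (γ • a) ∈ N

/-- The restrictions to `N` of the functionals `l a`, for the vertices `a`, are permuted by `K` up
to positive factors. -/
def PermutesHalfspaces (hol : Γ →* (E ≃ᵃ[ℝ] E)) (K : Subgroup Γ) {A : Type} [MulAction K A]
    (N : Submodule ℝ E) (l : A → E →ₗ[ℝ] ℝ) : Prop :=
  ∀ (γ : K) (a : A), ∃ c : ℝ, 0 < c ∧ ∀ v ∈ N, l a v = c * l (γ • a) (lin hol γ.1 v)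

/-- The stabilizer of the simplex `s` acts by positive scalars on `(W + N) / N`; for `N ≤ W` this
is a subspace of `E / N`, and for `W ≤ N` see below. -/
def Scalars (hol : Γ →* (E ≃ᵃ[ℝ] E)) (K : Subgroup Γ) {A : Type} [MulAction K A] (s : Finset A)
    (W N : Submodule ℝ E) : Prop :=
  ∀ γ : K, image γ s = s → ∃ c : ℝ, 0 < c ∧ ∀ v ∈ W, lin hol γ.1 v - c • v ∈ N

/-- **Theorem.** Let `Γ \ X` be a closed affine manifold and `K` a subgroup of finite index such
that the covering `K \ X` has no continuous vector field without zeros. Let `K` act on a simplicial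
complex, the realization of which is contractible or receives a continuous equivariant map from
`X`, and let the subspace `N` be invariant under the linear holonomy of `K`.
(1) For all rays `r a` in `E / N` which are permuted by `K` there is a simplex `s` such that the
`r a`, `a ∈ s`, are in no open half-space, and such that all subspaces `W` of `E` on which the
stabilizer of `s` acts by positive scalars modulo `N` satisfy `dim W < dim N + dim s + 1`.
(2) For all half-spaces `l a > 0` of `N` which are permuted by `K` there is a simplex `s` such that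
the half-spaces for the `a ∈ s` have no common point, and such that all subspaces `W` such that the
stabilizer of `s` acts by positive scalars on `N` modulo `W` satisfy
`dim N < dim W + dim s + 1`. -/
theorem result [T2Space X] [FiniteDimensional ℝ E] {dev : X → E} {hol : Γ →* (E ≃ᵃ[ℝ] E)}
    (D : ClosedAffine X Γ E dev hol) (K : Subgroup Γ) (hK : K.FiniteIndex)
    (hno : ¬ HasField X hol K) (A : Type) [MulAction K A] (𝒦 : Set (Finset A))
    (h𝒦 : Complex K 𝒦) (hmap : ContractibleSpace (Realization 𝒦) ∨ HasMap X K 𝒦)
    (N : Submodule ℝ E) (hN : LinInvariant hol K N) :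
    (∀ r : A → E, PermutesRays hol K N r → ∃ s ∈ 𝒦, s.Nonempty ∧
      (¬ ∃ g : E →ₗ[ℝ] ℝ, (∀ v ∈ N, g v = 0) ∧ ∀ a ∈ s, 0 < g (r a)) ∧
      ∀ W : Submodule ℝ E, Scalars hol K s W N →
        Module.finrank ℝ W < Module.finrank ℝ N + s.card) ∧
    (∀ l : A → E →ₗ[ℝ] ℝ, PermutesHalfspaces hol K N l → ∃ s ∈ 𝒦, s.Nonempty ∧
      (¬ ∃ v ∈ N, ∀ a ∈ s, 0 < l a v) ∧
      ∀ W : Submodule ℝ E, Scalars hol K s N W →
        Module.finrank ℝ N < Module.finrank ℝ W + s.card) := by
  have D₀ : Pool.Agent.W689.Ch.AffMfd X Γ E dev hol := ⟨D.loc, D.cont, D.equi, D.pd, D.cc⟩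
  have D' := Pool.Agent.Y150.Ch.restr D₀ K hK
  have hfree : ∀ (γ : K) (x : X), γ • x = x → γ = 1 := fun γ x h => Subtype.ext (D.free γ.1 x h)
  have hno' : ¬ ∃ Z : X → E, Continuous Z ∧
      (∀ (γ : K) x, Z (γ • x) = Pool.Agent.W689.Mk.lin (hol.comp K.subtype) γ (Z x)) ∧
      ∀ x, Z x ≠ 0 := by
    rintro ⟨Z, h1, h2, h3⟩
    exact hno ⟨Z, h1, h3, fun γ hγ x => h2 ⟨γ, hγ⟩ x⟩
  have hi : ∀ (γ : K), ∀ s ∈ 𝒦, s.map (MulAction.toPerm γ).toEmbedding ∈ 𝒦 := h𝒦.inv
  obtain ⟨f, hf1, hf2, hf3⟩ : ∃ f : X → A → ℝ, Continuous f ∧
      (∀ x, f x ∈ Pool.Agent.D0H13.CA.Rl 𝒦) ∧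
      ∀ (γ : K) x, f (γ • x) = fun a => f x (γ⁻¹ • a) := by
    rcases hmap with h | ⟨f, h1, h2, h3⟩
    · exact Pool.Agent.D0H26.SS.exists_map_rl D' hfree hi
        (by have := h; exact Pool.Agent.D0H13.CA.contr_of (Realization 𝒦))
    · refine ⟨f, h1, h2, fun γ x => ?_⟩
      funext a
      rw [← h3 γ x (γ⁻¹ • a), smul_inv_smul]
  refine ⟨fun r hr => ?_, fun l hl => ?_⟩
  · by_contra hcon
    push Not at hcon
    refine Pool.Agent.D0H26.SS.sub_full D' hno' hi h𝒦.faces hf1 hf2 hf3 N
      (fun γ v hv => hN γ.1 γ.2 v hv) r (fun γ a => hr γ a) ?_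
    intro s hs hs' hb
    obtain ⟨W, hW1, hW2⟩ := hcon s hs hs' (by push Not at hb; exact hb)
    exact ⟨W, hW2, fun γ hγ => hW1 γ hγ⟩
  · by_contra hcon
    push Not at hcon
    refine Pool.Agent.D0H26.SS.quot_full D' hno' hi h𝒦.faces hf1 hf2 hf3 N
      (fun γ v hv => hN γ.1 γ.2 v hv) l (fun γ a => hl γ a) ?_
    intro s hs hs' hb
    obtain ⟨W, hW1, hW2⟩ := hcon s hs hs' (by push Not at hb; exact hb)
    exact ⟨W, hW2, fun γ hγ => hW1 γ hγ⟩

end Pool.Agent.Results.MP_1fa9a4_gt.SmallStabilizers
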